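import Pool.Agent.H.MP_2f8e94_al.Defs
import Pool.Agent.H.MP_d8c2c9_al.A

namespace Pool.Agent.H.MP_2f8e94_al

structure Pre (R T : Type) [Ring R] where
  z : T
  a : T → T → T
  n : T → T
  s : R → T → T
  D : Setoid T
  ca : ∀ {x x' y y'}, D x x' → D y y' → D (a x y) (a x' y')
  cn : ∀ {x x'}, D x x' → D (n x) (n x')
  cs : ∀ r {x x'}, D x x' → D (s r x) (s r x')
  h1 : ∀ x y w, D (a (a x y) w) (a x (a y w))
  h2 : ∀ x y, D (a x y) (a y x)
  h3 : ∀ x, D (a z x) x
  h4 : ∀ x, D (a (n x) x) z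
  h5 : ∀ r x y, D (s r (a x y)) (a (s r x) (s r y))
  h6 : ∀ r r' x, D (s (r + r') x) (a (s r x) (s r' x))
  h7 : ∀ r r' x, D (s (r * r') x) (s r (s r' x))
  h8 : ∀ x, D (s 1 x) x

namespace Pre
variable {R T : Type} [Ring R] (P : Pre R T)

def Q := Quotient P.D

def cl (x : T) : P.Q := Quotient.mk P.D x

noncomputable def out (q : P.Q) : T := Quotient.out q

theorem mk_out (q : P.Q) : P.cl (P.out q) = q := Quotient.out_eq q

theorem eq {x y : T} : P.cl x = P.cl y ↔ P.D x y := Quotient.eq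

instance : Zero P.Q := ⟨P.cl P.z⟩
instance : Add P.Q := ⟨Quotient.map₂ P.a fun _ _ h _ _ h' => P.ca h h'⟩
instance : Neg P.Q := ⟨Quotient.map P.n fun _ _ h => P.cn h⟩
instance : SMul R P.Q := ⟨fun r => Quotient.map (P.s r) fun _ _ h => P.cs r h⟩

instance : AddCommGroup P.Q :=
  { AddGroup.ofLeftAxioms (G := P.Q)
      (fun a b c => Quotient.inductionOn₃ a b c fun x y w => P.eq.2 (P.h1 x y w))
      (fun a => Quotient.inductionOn a fun x => P.eq.2 (P.h3 x))
      (fun a => Quotient.inductionOn a fun x => P.eq.2 (P.h4 x)) with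
    add_comm := fun a b => Quotient.inductionOn₂ a b fun x y => P.eq.2 (P.h2 x y) }

instance : Module R P.Q := Module.ofMinimalAxioms
  (fun r a b => Quotient.inductionOn₂ a b fun x y => P.eq.2 (P.h5 r x y))
  (fun r r' a => Quotient.inductionOn a fun x => P.eq.2 (P.h6 r r' x))
  (fun r r' a => Quotient.inductionOn a fun x => P.eq.2 (P.h7 r r' x))
  (fun a => Quotient.inductionOn a fun x => P.eq.2 (P.h8 x))

end Pre

variable {R S ι : Type} {ar : ι → ℕ}

def T1.dep : T1 R → ℕ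
  | .var j => j
  | .zero => 0
  | .add s t => max s.dep t.dep + 1
  | .neg s => s.dep + 1
  | .smul _ s => s.dep + 1

def T2.dep : T2 R S ι ar → ℕ
  | .var j => j
  | .zero => 0
  | .add s t => max s.dep t.dep + 1
  | .neg s => s.dep + 1
  | .smul _ s => s.dep + 1
  | .app _ t => Finset.univ.sup fun l => (t l).dep

theorem fin1 [Finite R] (d : ℕ) : {t : T1 R | t.dep < d}.Finite := by
  induction d with
  | zero => simp
  | succ d ih =>
    refine ((((((Set.finite_lt_nat (d + 1)).image T1.var).insert .zero).union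
      (ih.image2 T1.add ih)).union (ih.image .neg)).union
      (Set.finite_univ.image2 T1.smul ih)).subset ?_
    rintro (j | _ | ⟨s, t⟩ | s | ⟨r, s⟩) h <;> simp only [Set.mem_ofPred_eq, T1.dep] at h <;>
      simp <;> omega

theorem fin2 [Finite R] [Finite S] [Finite ι] (d : ℕ) : {t : T2 R S ι ar | t.dep < d}.Finite := by
  induction d with
  | zero => simp
  | succ d ih =>
    refine (((((((Set.finite_lt_nat (d + 1)).image T2.var).insert .zero).union
      (ih.image2 T2.add ih)).union (ih.image .neg)).union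
      (Set.finite_univ.image2 T2.smul ih)).union (Set.finite_iUnion fun i =>
        (Set.Finite.pi' fun _ : Fin (ar i) => fin1 (R := R) (d + 1)).image (T2.app i))).subset ?_
    rintro (j | _ | ⟨s, t⟩ | s | ⟨r, s⟩ | ⟨i, t⟩) h <;>
      simp only [Set.mem_ofPred_eq, T2.dep] at h
    · simp; omega
    · simp
    · simp; omega
    · simp; omega
    · simp; omega
    · exact Or.inr (Set.mem_iUnion.2 ⟨i, t, fun l =>
        (Finset.le_sup (f := fun l => (t l).dep) (Finset.mem_univ l)).trans_lt h, rfl⟩)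

theorem subst_var1 (t : T1 R) : t.subst .var = t := by
  induction t <;> simp_all [T1.subst]

theorem subst_var2 (t : T2 R S ι ar) : t.subst .var .var = t := by
  induction t <;> simp_all [T2.subst, subst_var1]

variable [Ring R] [Ring S]

section
variable (A : Type) [AddCommGroup A] [Module R A] {B : Type} [AddCommGroup B] [Module S B]
  (f : ∀ i, (Fin (ar i) → A) → B)

def E1 (d : ℕ) : Set (T1 R × T1 R) := {p | p.1.dep < d ∧ p.2.dep < d ∧ Holds1 A p.1 p.2}

variable {A} in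
def E2 (S : Type) [Ring S] [Module S B] (R : Type) [Ring R] [Module R A] (d : ℕ) :
    Set (T2 R S ι ar × T2 R S ι ar) :=
  {p | p.1.dep < d ∧ p.2.dep < d ∧ Holds2 f p.1 p.2}

def sub3 {T : Type} (x y w : T) : ℕ → T
  | 0 => x
  | 1 => y
  | _ => w

def pre1 (R : Type) [Ring R] [Module R A] (d : ℕ) : Pre R (T1 R) where
  z := .zero
  a := .add
  n := .neg
  s := .smul
  D := ⟨D1 (E1 A (d + 9)), D1.refl, D1.symm, D1.trans⟩
  ca := D1.add
  cn := D1.neg
  cs := D1.smul
  h1 x y w := D1.ax (s := .add (.add (.var 0) (.var 1)) (.var 2))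
    (t := .add (.var 0) (.add (.var 1) (.var 2))) (sub3 x y w)
    ⟨by simp [T1.dep], by simp [T1.dep], fun _ => add_assoc _ _ _⟩
  h2 x y := D1.ax (s := .add (.var 0) (.var 1)) (t := .add (.var 1) (.var 0)) (sub3 x y x)
    ⟨by simp [T1.dep], by simp [T1.dep], fun _ => add_comm _ _⟩
  h3 x := D1.ax (s := .add .zero (.var 0)) (t := .var 0) (sub3 x x x)
    ⟨by simp [T1.dep], by simp [T1.dep], fun _ => zero_add _⟩
  h4 x := D1.ax (s := .add (.neg (.var 0)) (.var 0)) (t := .zero) (sub3 x x x)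
    ⟨by simp [T1.dep], by simp [T1.dep], fun _ => neg_add_cancel _⟩
  h5 r x y := D1.ax (s := .smul r (.add (.var 0) (.var 1)))
    (t := .add (.smul r (.var 0)) (.smul r (.var 1))) (sub3 x y x)
    ⟨by simp [T1.dep], by simp [T1.dep], fun _ => smul_add _ _ _⟩
  h6 r r' x := D1.ax (s := .smul (r + r') (.var 0))
    (t := .add (.smul r (.var 0)) (.smul r' (.var 0))) (sub3 x x x)
    ⟨by simp [T1.dep], by simp [T1.dep], fun _ => add_smul _ _ _⟩
  h7 r r' x := D1.ax (s := .smul (r * r') (.var 0))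
    (t := .smul r (.smul r' (.var 0))) (sub3 x x x)
    ⟨by simp [T1.dep], by simp [T1.dep], fun _ => mul_smul _ _ _⟩
  h8 x := D1.ax (s := .smul 1 (.var 0)) (t := .var 0) (sub3 x x x)
    ⟨by simp [T1.dep], by simp [T1.dep], fun _ => one_smul _ _⟩

variable {A} in
def pre2 (S : Type) [Ring S] [Module S B] (R : Type) [Ring R] [Module R A] (d : ℕ) :
    Pre S (T2 R S ι ar) where
  z := .zero
  a := .add
  n := .neg
  s := .smul
  D := ⟨D2 (E1 A (d + 9)) (E2 f S R (d + 9)), D2.refl, D2.symm, D2.trans⟩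
  ca := D2.add
  cn := D2.neg
  cs := D2.smul
  h1 x y w := D2.ax (s := .add (.add (.var 0) (.var 1)) (.var 2))
    (t := .add (.var 0) (.add (.var 1) (.var 2))) .var (sub3 x y w)
    ⟨by simp [T2.dep], by simp [T2.dep], fun _ _ => add_assoc _ _ _⟩
  h2 x y := D2.ax (s := .add (.var 0) (.var 1)) (t := .add (.var 1) (.var 0)) .var (sub3 x y x)
    ⟨by simp [T2.dep], by simp [T2.dep], fun _ _ => add_comm _ _⟩
  h3 x := D2.ax (s := .add .zero (.var 0)) (t := .var 0) .var (sub3 x x x)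
    ⟨by simp [T2.dep], by simp [T2.dep], fun _ _ => zero_add _⟩
  h4 x := D2.ax (s := .add (.neg (.var 0)) (.var 0)) (t := .zero) .var (sub3 x x x)
    ⟨by simp [T2.dep], by simp [T2.dep], fun _ _ => neg_add_cancel _⟩
  h5 r x y := D2.ax (s := .smul r (.add (.var 0) (.var 1)))
    (t := .add (.smul r (.var 0)) (.smul r (.var 1))) .var (sub3 x y x)
    ⟨by simp [T2.dep], by simp [T2.dep], fun _ _ => smul_add _ _ _⟩
  h6 r r' x := D2.ax (s := .smul (r + r') (.var 0))
    (t := .add (.smul r (.var 0)) (.smul r' (.var 0))) .var (sub3 x x x)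
    ⟨by simp [T2.dep], by simp [T2.dep], fun _ _ => add_smul _ _ _⟩
  h7 r r' x := D2.ax (s := .smul (r * r') (.var 0))
    (t := .smul r (.smul r' (.var 0))) .var (sub3 x x x)
    ⟨by simp [T2.dep], by simp [T2.dep], fun _ _ => mul_smul _ _ _⟩
  h8 x := D2.ax (s := .smul 1 (.var 0)) (t := .var 0) .var (sub3 x x x)
    ⟨by simp [T2.dep], by simp [T2.dep], fun _ _ => one_smul _ _⟩

theorem ev1 (d : ℕ) (σ : ℕ → T1 R) (t : T1 R) :
    t.eval (fun j => (pre1 A R d).cl (σ j)) = (pre1 A R d).cl (t.subst σ) := by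
  induction t with
  | var j => rfl
  | zero => rfl
  | add s t h1 h2 => simp only [T1.eval, h1, h2]; rfl
  | neg s h => simp only [T1.eval, h]; rfl
  | smul r s h => simp only [T1.eval, h]; rfl

variable {A}

noncomputable def fbar (S : Type) [Ring S] [Module S B] (R : Type) [Ring R] [Module R A] (d : ℕ)
    (i : ι) (q : Fin (ar i) → (pre1 A R d).Q) : (pre2 f S R d).Q :=
  (pre2 f S R d).cl (.app i fun l => (pre1 A R d).out (q l))

theorem ev2 (d : ℕ) (σ : ℕ → T1 R) (ρ : ℕ → T2 R S ι ar) (t : T2 R S ι ar) :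
    t.eval (fbar f S R d) (fun j => (pre1 A R d).cl (σ j)) (fun j => (pre2 f S R d).cl (ρ j)) =
      (pre2 f S R d).cl (t.subst σ ρ) := by
  induction t with
  | var j => rfl
  | zero => rfl
  | add s t h1 h2 => simp only [T2.eval, h1, h2]; rfl
  | neg s h => simp only [T2.eval, h]; rfl
  | smul r s h => simp only [T2.eval, h]; rfl
  | app i t =>
    simp only [T2.eval, ev1]
    exact (pre2 f S R d).eq.2 (D2.app i fun l => (pre1 A R d).eq.1 ((pre1 A R d).mk_out _))

theorem tm1 (d : ℕ) (s t : T1 R) (h : (s, t) ∈ E1 A (d + 9)) : Holds1 (pre1 A R d).Q s t := by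
  intro x
  obtain ⟨σ, rfl⟩ : ∃ σ : ℕ → T1 R, x = fun j => (pre1 A R d).cl (σ j) :=
    ⟨_, funext fun j => ((pre1 A R d).mk_out _).symm⟩
  rw [ev1, ev1]
  exact (pre1 A R d).eq.2 (D1.ax σ h)

theorem tm2 (d : ℕ) (s t : T2 R S ι ar) (h : (s, t) ∈ E2 f S R (d + 9)) :
    Holds2 (fbar f S R d) s t := by
  intro x y
  obtain ⟨σ, rfl⟩ : ∃ σ : ℕ → T1 R, x = fun j => (pre1 A R d).cl (σ j) :=
    ⟨_, funext fun j => ((pre1 A R d).mk_out _).symm⟩
  obtain ⟨ρ, rfl⟩ : ∃ ρ : ℕ → T2 R S ι ar, y = fun j => (pre2 f S R d).cl (ρ j) :=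
    ⟨_, funext fun j => ((pre2 f S R d).mk_out _).symm⟩
  rw [ev2, ev2]
  exact (pre2 f S R d).eq.2 (D2.ax σ ρ h)

theorem cp1 (d : ℕ) (s t : T1 R) (h : Holds1 (pre1 A R d).Q s t) : D1 (E1 A (d + 9)) s t := by
  have := h fun j => (pre1 A R d).cl (.var j)
  rw [ev1, ev1, subst_var1, subst_var1] at this
  exact (pre1 A R d).eq.1 this

theorem cp2 (d : ℕ) (s t : T2 R S ι ar) (h : Holds2 (fbar f S R d) s t) :
    D2 (E1 A (d + 9)) (E2 f S R (d + 9)) s t := by
  have := h (fun j => (pre1 A R d).cl (.var j)) fun j => (pre2 f S R d).cl (.var j)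
  rw [ev2, ev2, subst_var2, subst_var2] at this
  exact (pre2 f S R d).eq.1 this

end

end Pool.Agent.H.MP_2f8e94_al
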