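import Pool.Agent.H.MP_2f8e94_al.A

namespace Pool.Agent.H.MP_2f8e94_al
open Pool.Agent.H.MP_d8c2c9_al Filter

variable {R S ι : Type} {ar : ι → ℕ} [Ring R] [Ring S]

theorem nf1 (t : T1 R) : ∀ᶠ k in atTop, ∃ r : Fin (k + 1) → R, ∀ (A : Type) [AddCommGroup A]
    [Module R A] (x : ℕ → A), t.eval x = ∑ j, r j • x j := by
  induction t with
  | var j =>
    filter_upwards [eventually_ge_atTop j] with k hk
    refine ⟨Pi.single ⟨j, Nat.lt_succ_of_le hk⟩ 1, fun A _ _ x => ?_⟩
    simp [T1.eval, Pi.single_apply, ite_smul]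
  | zero => exact .of_forall fun k => ⟨0, fun A _ _ x => by simp [T1.eval]⟩
  | add s t h1 h2 =>
    filter_upwards [h1, h2] with k ⟨r, hr⟩ ⟨r', hr'⟩
    exact ⟨r + r', fun A _ _ x => by simp [T1.eval, hr, hr', add_smul, Finset.sum_add_distrib]⟩
  | neg s h =>
    filter_upwards [h] with k ⟨r, hr⟩
    exact ⟨-r, fun A _ _ x => by simp [T1.eval, hr]⟩
  | smul c s h =>
    filter_upwards [h] with k ⟨r, hr⟩
    exact ⟨c • r, fun A _ _ x => by simp [T1.eval, hr, Finset.smul_sum, mul_smul]⟩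

abbrev Al (R : Type) {ι : Type} (ar : ι → ℕ) := ∀ i, Fin (ar i) → R

variable [Fintype ι] [Fintype (Al R ar)]

def Phi {A B : Type} [AddCommGroup A] [Module R A] [AddCommGroup B] [Module S B]
    (f : ∀ i, (Fin (ar i) → A) → B) {k : ℕ} (x : Fin k → A) :
    ((Fin k → Al R ar) → ι → S) →ₗ[S] B where
  toFun u := ∑ w, ∑ i, u w i • f i fun l => ∑ j, w j i l • x j
  map_add' u v := by simp [add_smul, Finset.sum_add_distrib]
  map_smul' c u := by simp [Finset.smul_sum, mul_smul]

theorem nf2 (t : T2 R S ι ar) : ∀ᶠ k in atTop, ∃ (d : Fin (k + 1) → S)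
    (u : (Fin (k + 1) → Al R ar) → ι → S), ∀ (A B : Type) [AddCommGroup A]
    [Module R A] [AddCommGroup B] [Module S B] (f : ∀ i, (Fin (ar i) → A) → B) (x : ℕ → A)
    (y : ℕ → B), t.eval f x y = ∑ j, d j • y j + Phi f (fun j => x j) u := by
  classical
  induction t with
  | var j =>
    filter_upwards [eventually_ge_atTop j] with k hk
    refine ⟨Pi.single ⟨j, Nat.lt_succ_of_le hk⟩ 1, 0, fun A B _ _ _ _ f x y => ?_⟩
    simp [T2.eval, Pi.single_apply, ite_smul]
  | zero => exact .of_forall fun k => ⟨0, 0, fun A B _ _ _ _ f x y => by simp [T2.eval]⟩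
  | add s t h1 h2 =>
    filter_upwards [h1, h2] with k ⟨r, u, hr⟩ ⟨r', u', hr'⟩
    refine ⟨r + r', u + u', fun A B _ _ _ _ f x y => ?_⟩
    simp only [T2.eval, hr, hr', Pi.add_apply, add_smul, Finset.sum_add_distrib, map_add]
    abel
  | neg s h =>
    filter_upwards [h] with k ⟨r, u, hr⟩
    exact ⟨-r, -u, fun A B _ _ _ _ f x y => by simp [T2.eval, hr, add_comm]⟩
  | smul c s h =>
    filter_upwards [h] with k ⟨r, u, hr⟩
    exact ⟨c • r, c • u, fun A B _ _ _ _ f x y => by
      simp [T2.eval, hr, Finset.smul_sum, mul_smul]⟩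
  | app i t =>
    filter_upwards [eventually_all.2 fun l => nf1 (t l)] with k hk
    choose r hr using hk
    refine ⟨0, Pi.single (fun j => Pi.single i fun l => r l j) (Pi.single i 1),
      fun A B _ _ _ _ f x y => ?_⟩
    simp only [T2.eval, hr, Pi.zero_apply, zero_smul, Finset.sum_const_zero, zero_add]
    change _ = ∑ w, ∑ i, _
    rw [Finset.sum_eq_single_of_mem (fun j => Pi.single i fun l => r l j) (Finset.mem_univ _)
      fun w _ hw => by simp [Pi.single_eq_of_ne hw], Finset.sum_eq_single_of_mem i (Finset.mem_univ _)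
      fun i' _ hi => by simp [Pi.single_eq_of_ne hi]]
    simp

theorem phi_push {A B : Type} [AddCommGroup A] [Module R A] [AddCommGroup B] [Module S B]
    (f : ∀ i, (Fin (ar i) → A) → B) {m n : ℕ} (τ : Fin n → Fin m) (hτ : Function.Surjective τ)
    (u : (Fin m → Al R ar) → ι → S) (y : Fin n → A) :
    Phi f y (Function.extend (fun x : Fin m → Al R ar => x ∘ τ) u 0) =
      Phi f (fun a => ∑ j, if τ j = a then y j else 0) u := by
  classical
  have inj : Function.Injective fun x : Fin m → Al R ar => x ∘ τ := hτ.injective_comp_right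
  change ∑ w, _ = ∑ w, _
  symm
  refine Finset.sum_of_injOn (fun x => x ∘ τ) inj.injOn (fun _ _ => Finset.mem_univ _)
    (fun w _ hw => ?_) fun x _ => ?_
  · rw [Function.extend_apply' _ _ _ (by simpa using hw)]
    simp
  · rw [inj.extend_apply]
    refine Finset.sum_congr rfl fun i _ => ?_
    congr 2
    funext l
    simp only [Finset.smul_sum, smul_ite, smul_zero]
    rw [Finset.sum_comm]
    simp

variable {A B : Type} [AddCommGroup A] [Module R A] [AddCommGroup B] [Module S B]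
  (f : ∀ i, (Fin (ar i) → A) → B)

def G (S : Type) [Ring S] [Module S B] (R : Type) [Ring R] [Module R A] [Fintype (Al R ar)]
    (d : ℕ) : Fam (Al R ar) (ι → S) := fun k =>
  { carrier := {u | ∀ (A' B' : Type) [AddCommGroup A'] [Module R A'] [AddCommGroup B']
      [Module S B'] (f' : ∀ i, (Fin (ar i) → A') → B'),
      (∀ s t, (s, t) ∈ E2 f S R d → Holds2 f' s t) → ∀ x, Phi f' x u = 0}
    add_mem' := fun ha hb A' B' _ _ _ _ f' h x => by
      rw [map_add, ha A' B' f' h, hb A' B' f' h, add_zero]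
    zero_mem' := fun A' B' _ _ _ _ f' h x => map_zero _
    neg_mem' := fun ha A' B' _ _ _ _ f' h x => by rw [map_neg, ha A' B' f' h, neg_zero] }

theorem G_push (d : ℕ) : Push (G f S R d) := fun m n τ hτ u hu A' B' _ _ _ _ f' h x => by
  rw [phi_push f' τ hτ]
  exact hu A' B' f' h _

theorem G_mono : Monotone (G f S R) := fun d e hde k u hu A' B' _ _ _ _ f' h =>
  hu A' B' f' fun s t hp => h s t ⟨hp.1.trans_le hde, hp.2.1.trans_le hde, hp.2.2⟩

theorem G_stab [Finite S] : ∃ d, ∀ e, d ≤ e → G f S R d = G f S R e := by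
  have w : WellFoundedGT {U : Fam (Al R ar) (ι → S) // Push U} :=
    ⟨wellFounded_iff_isEmpty_descending_chain.2 ⟨fun ⟨g, hg⟩ =>
      acc (fun i => (g i).1) (fun i => (g i).2) (strictMono_nat_of_lt_succ hg)⟩⟩
  obtain ⟨d, hd⟩ := WellFoundedGT.monotone_chain_condition
    (⟨fun d => ⟨G f S R d, G_push f d⟩, G_mono f⟩ : ℕ →o {U : Fam (Al R ar) (ι → S) // Push U})
  exact ⟨d, fun e he => congrArg Subtype.val (hd e he)⟩

omit [Fintype ι] [Fintype (Al R ar)] in
theorem ann {k : ℕ} {r : Fin k → S} (h : ∀ y : ℕ → B, ∑ j, r j • y j = 0) (j : Fin k) (b : B) :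
    r j • b = 0 := by
  classical
  have := h (Pi.single j b)
  rwa [Finset.sum_eq_single_of_mem j (Finset.mem_univ _) fun i _ hi => by
    rw [Pi.single_eq_of_ne (Fin.val_ne_of_ne hi), smul_zero], Pi.single_eq_same] at this

omit [Fintype ι] [Fintype (Al R ar)] in
theorem main1 {A' : Type} [AddCommGroup A'] [Module R A'] (d : ℕ)
    (h : ∀ s t : T1 R, (s, t) ∈ E1 A (d + 9) → Holds1 A' s t) (s t : T1 R) (hs : Holds1 A s t) :
    Holds1 A' s t := by
  obtain ⟨k, r, hr⟩ := (nf1 (.add s (.neg t))).exists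
  have h0 : ∀ j (b : A'), r j • b = 0 := fun j b =>
    h (.smul (r j) (.var 0)) .zero ⟨by simp [T1.dep], by simp [T1.dep], fun x =>
      ann (fun y => by rw [← hr]; simp [T1.eval, hs y]) j _⟩ fun _ => b
  intro x
  have := hr A' x
  simpa [T1.eval, h0, add_neg_eq_zero] using this

theorem main2 [Finite S] : ∃ d, ∀ (A' B' : Type) [AddCommGroup A'] [Module R A'] [AddCommGroup B']
    [Module S B'] (f' : ∀ i, (Fin (ar i) → A') → B'),
    (∀ s t, (s, t) ∈ E2 f S R (d + 9) → Holds2 f' s t) →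
    ∀ s t : T2 R S ι ar, Holds2 f s t → Holds2 f' s t := by
  obtain ⟨d, hd⟩ := G_stab (R := R) (S := S) f
  refine ⟨d, fun A' B' _ _ _ _ f' h s t hs => ?_⟩
  obtain ⟨k, r, u, hr⟩ := (nf2 (.add s (.neg t))).exists
  have key : ∀ (A' B' : Type) [AddCommGroup A'] [Module R A'] [AddCommGroup B']
      [Module S B'] (f' : ∀ i, (Fin (ar i) → A') → B'), Holds2 f' s t →
      ∀ x, Phi f' x u = 0 := fun A' B' _ _ _ _ f' h x => by
    have := hr A' B' f' (fun j => if h : j < k + 1 then x ⟨j, h⟩ else 0) 0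
    simpa [T2.eval, h _ _, Fin.is_le, eq_comm] using this
  have h1 : u ∈ G f S R (max (d + 9) (max s.dep t.dep + 1)) k := fun A' B' _ _ _ _ f' h =>
    key A' B' f' (h s t ⟨by simp only; omega, by simp only; omega, hs⟩)
  rw [← hd _ (by omega), hd (d + 9) (by omega)] at h1
  have h0 : ∀ j (b : B'), r j • b = 0 := fun j b =>
    h (.smul (r j) (.var 0)) .zero ⟨by simp [T2.dep], by simp [T2.dep], fun x y =>
      ann (fun y => by
        have := hr A B f 0 y
        rw [key A B f hs] at this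
        simpa [T2.eval, hs _ _, eq_comm] using this) j _⟩ 0 fun _ => b
  intro x y
  have := hr A' B' f' x y
  rw [h1 A' B' f' h] at this
  simpa [T2.eval, h0, add_neg_eq_zero] using this

end Pool.Agent.H.MP_2f8e94_al
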