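import Mathlib

namespace Pool.Agent.H.MP_2f8e94_al

/-- Terms of sort 1: variables of sort 1 and the operations of an `R`-module. -/
inductive T1 (R : Type) : Type
  | var : ℕ → T1 R
  | zero : T1 R
  | add : T1 R → T1 R → T1 R
  | neg : T1 R → T1 R
  | smul : R → T1 R → T1 R

/-- Terms of sort 2: variables of sort 2, the operations of an `S`-module, and an operation
symbol for each `i : ι`, applied to `ar i` terms of sort 1. -/
inductive T2 (R S ι : Type) (ar : ι → ℕ) : Type
  | var : ℕ → T2 R S ι ar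
  | zero : T2 R S ι ar
  | add : T2 R S ι ar → T2 R S ι ar → T2 R S ι ar
  | neg : T2 R S ι ar → T2 R S ι ar
  | smul : S → T2 R S ι ar → T2 R S ι ar
  | app : (i : ι) → (Fin (ar i) → T1 R) → T2 R S ι ar

variable {R S ι : Type} {ar : ι → ℕ}

/-- Substitution of terms of sort 1 for the variables of sort 1. -/
def T1.subst (σ : ℕ → T1 R) : T1 R → T1 R
  | .var j => σ j
  | .zero => .zero
  | .add s t => .add (s.subst σ) (t.subst σ)
  | .neg s => .neg (s.subst σ)
  | .smul r s => .smul r (s.subst σ)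

/-- Substitution of terms of sort 1 and 2 for the variables of sort 1 and 2. -/
def T2.subst (σ : ℕ → T1 R) (ρ : ℕ → T2 R S ι ar) : T2 R S ι ar → T2 R S ι ar
  | .var j => ρ j
  | .zero => .zero
  | .add s t => .add (s.subst σ ρ) (t.subst σ ρ)
  | .neg s => .neg (s.subst σ ρ)
  | .smul r s => .smul r (s.subst σ ρ)
  | .app i t => .app i fun l => (t l).subst σ

/-- The identities of sort 1 derivable in equational logic from the identities `E1`. -/
inductive D1 (E1 : Set (T1 R × T1 R)) : T1 R → T1 R → Prop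
  | ax {s t : T1 R} (σ : ℕ → T1 R) : (s, t) ∈ E1 → D1 E1 (s.subst σ) (t.subst σ)
  | refl (s : T1 R) : D1 E1 s s
  | symm {s t : T1 R} : D1 E1 s t → D1 E1 t s
  | trans {s t u : T1 R} : D1 E1 s t → D1 E1 t u → D1 E1 s u
  | add {s s' t t' : T1 R} : D1 E1 s s' → D1 E1 t t' → D1 E1 (.add s t) (.add s' t')
  | neg {s s' : T1 R} : D1 E1 s s' → D1 E1 (.neg s) (.neg s')
  | smul (r : R) {s s' : T1 R} : D1 E1 s s' → D1 E1 (.smul r s) (.smul r s')

/-- The identities of sort 2 derivable in two-sorted equational logic from the identities `E1`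
of sort 1 and `E2` of sort 2. -/
inductive D2 (E1 : Set (T1 R × T1 R)) (E2 : Set (T2 R S ι ar × T2 R S ι ar)) :
    T2 R S ι ar → T2 R S ι ar → Prop
  | ax {s t : T2 R S ι ar} (σ : ℕ → T1 R) (ρ : ℕ → T2 R S ι ar) :
      (s, t) ∈ E2 → D2 E1 E2 (s.subst σ ρ) (t.subst σ ρ)
  | refl (s : T2 R S ι ar) : D2 E1 E2 s s
  | symm {s t : T2 R S ι ar} : D2 E1 E2 s t → D2 E1 E2 t s
  | trans {s t u : T2 R S ι ar} : D2 E1 E2 s t → D2 E1 E2 t u → D2 E1 E2 s u
  | add {s s' t t' : T2 R S ι ar} :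
      D2 E1 E2 s s' → D2 E1 E2 t t' → D2 E1 E2 (.add s t) (.add s' t')
  | neg {s s' : T2 R S ι ar} : D2 E1 E2 s s' → D2 E1 E2 (.neg s) (.neg s')
  | smul (r : S) {s s' : T2 R S ι ar} : D2 E1 E2 s s' → D2 E1 E2 (.smul r s) (.smul r s')
  | app (i : ι) {s t : Fin (ar i) → T1 R} :
      (∀ l, D1 E1 (s l) (t l)) → D2 E1 E2 (.app i s) (.app i t)

variable [Ring R] [Ring S] {A B : Type} [AddCommGroup A] [Module R A] [AddCommGroup B]
  [Module S B]

/-- The value in the module `A` of a term of sort 1 under the assignment `x`. -/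
def T1.eval (x : ℕ → A) : T1 R → A
  | .var j => x j
  | .zero => 0
  | .add s t => s.eval x + t.eval x
  | .neg s => -s.eval x
  | .smul r s => r • s.eval x

/-- The value in `B` of a term of sort 2 in the two-sorted algebra `M(A, B, f)` under the
assignments `x` (sort 1) and `y` (sort 2). -/
def T2.eval (f : ∀ i, (Fin (ar i) → A) → B) (x : ℕ → A) (y : ℕ → B) : T2 R S ι ar → B
  | .var j => y j
  | .zero => 0
  | .add s t => s.eval f x y + t.eval f x y
  | .neg s => -s.eval f x y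
  | .smul r s => r • s.eval f x y
  | .app i t => f i fun l => (t l).eval x

/-- The identity `s ≈ t` of sort 1 is true in `A`. -/
def Holds1 (A : Type) [AddCommGroup A] [Module R A] (s t : T1 R) : Prop :=
  ∀ x : ℕ → A, s.eval x = t.eval x

/-- The identity `s ≈ t` of sort 2 is true in `M(A, B, f)`. -/
def Holds2 (f : ∀ i, (Fin (ar i) → A) → B) (s t : T2 R S ι ar) : Prop :=
  ∀ (x : ℕ → A) (y : ℕ → B), s.eval f x y = t.eval f x y

/-- The two-sorted algebra `M(A, B, f)` has a finite equational basis. -/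
def FinitelyBased (R S : Type) [Ring R] [Ring S] [Module R A] [Module S B]
    (f : ∀ i, (Fin (ar i) → A) → B) : Prop :=
  ∃ (E1 : Set (T1 R × T1 R)) (E2 : Set (T2 R S ι ar × T2 R S ι ar)), E1.Finite ∧ E2.Finite ∧
    (∀ p ∈ E1, Holds1 A p.1 p.2) ∧ (∀ p ∈ E2, Holds2 f p.1 p.2) ∧
    (∀ s t, Holds1 A s t → D1 E1 s t) ∧ ∀ s t, Holds2 f s t → D2 E1 E2 s t

end Pool.Agent.H.MP_2f8e94_al
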